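import Pool.Agent.H98.AO.BStmts

/-!
AO: module CBN (the countable subsets of a set of size aleph `n + 1`, under CH).
-/

set_option linter.unusedVariables false
set_option linter.unusedSectionVars false
set_option synthInstance.maxSize 100000

namespace AO

open SW

section
variable {M : Type} [SetStr M] [ZF M]

/-- the set of countable subsets -/
noncomputable def cbs (x : M) : M := sep (pow x) (fun c => Cb c)

theorem cbs_df : Fn1 (fun x : M => cbs x) := by unfold cbs; infer_instance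

instance {n : ℕ} {t : (Fin n → M) → M} [ht : DfT t] : DfT (fun v => cbs (t v)) :=
  cbs_df.comp1 ht

theorem mem_cbs {x c : M} : E c (cbs x) ↔ Sub c x ∧ Cb c := by
  unfold cbs; rw [mem_sep, mem_pow]

/-- countable subsets of images are images of countable subsets -/
theorem cbs_img (sz : SzFacts M) {n : ℕ} {w x f : M} (hw0 : Ord w)
    (hf : ∀ y, E y x → ∃ a, E a w ∧ y = app f a) (hw : Sz n (cbs w)) : Sz n (cbs x) := by
  have hF : Fn1 (fun s : M => img s (fun a => app f a)) := by infer_instance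
  refine sz.sub n _ _ (sz.img n _ (fun s : M => img s (fun a => app f a)) hF hw) fun c hc => ?_
  rw [mem_cbs] at hc
  rw [mem_img' hF]
  have hcl : Cl (fun a : M => E (app f a) c ∧ ∀ a', E a' w → E a' a → app f a' ≠ app f a) := by
    infer_instance
  have happ : Fn1 (fun a : M => app f a) := by infer_instance
  refine ⟨sep w (fun a => E (app f a) c ∧ ∀ a', E a' w → E a' a → app f a' ≠ app f a), ?_, ?_⟩
  · rw [mem_cbs]
    refine ⟨fun a ha => ((mem_sep' hcl).1 ha).1, ?_⟩
    rw [← sz.cb]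
    refine sz.inj 0 _ c (fun a => app f a) happ ((sz.cb c).2 hc.2)
      (fun a ha => ((mem_sep' hcl).1 ha).2.1) fun a a' ha ha' h => ?_
    rw [mem_sep' hcl] at ha ha'
    rcases (hw0.mem ha.1).tri (hw0.mem ha'.1) with h1 | h1 | h1
    · exact absurd h (ha'.2.2 a ha.1 h1)
    · exact h1
    · exact absurd h.symm (ha.2.2 a' ha'.1 h1)
  · refine ext fun y => ?_
    rw [mem_img' happ]
    constructor
    · intro hy
      obtain ⟨a, ha, hya⟩ := hf y (hc.1 y hy)
      obtain ⟨b, hb, hb1, hb2, hb3⟩ := ord_min (C := fun b : M => y = app f b) inferInstance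
        (hw0.mem ha) hya
      have hbw : E b w := by
        rcases hb3 with h | rfl
        · exact hw0.trans ha h
        · exact ha
      refine ⟨b, (mem_sep' hcl).2 ⟨hbw, by rw [← hb1]; exact hy, fun a' ha' h1 h2 => ?_⟩, hb1⟩
      exact hb2 a' h1 (by rw [h2]; exact hb1)
    · rintro ⟨a, ha, rfl⟩
      exact ((mem_sep' hcl).1 ha).2.1

theorem cbs_alf (al : AlfFacts M) (sz : SzFacts M) (rg : ∀ (n : ℕ) (w s : M), Alf (n + 1) w →
    Sub s w → Sz n s → ∃ b, E b w ∧ ∀ a, E a s → E a b) (hch : Sz 1 (pow om : M)) :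
    ∀ (n : ℕ) (w : M), Alf (n + 1) w → Sz (n + 1) (cbs w) := by
  have step : ∀ (n : ℕ) (v w : M), Alf n v → Sz (n + 1) (cbs v) → Alf (n + 1) w →
      Sz (n + 1) (cbs w) := by
    intro n v w hv hcv hw
    refine sz.sub (n + 1) _ _ (sz.iUn (n + 1) w (fun b => cbs b) cbs_df (sz.self _ _ hw)
      fun b hb => ?_) fun c hc => ?_
    · obtain ⟨v', hv', f, hf⟩ := al.small n w b hw hb
      rw [al.uniq n v' v hv' hv] at hf
      exact cbs_img sz (al.ord n v hv) hf hcv
    · rw [mem_cbs] at hc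
      obtain ⟨b, hb, h⟩ := rg n w c hw hc.1 (sz.mono 0 n c (Nat.zero_le n) ((sz.cb c).2 hc.2))
      rw [mem_sUn]
      refine ⟨cbs b, ?_, mem_cbs.2 ⟨h, hc.2⟩⟩
      rw [mem_img' cbs_df]
      exact ⟨b, hb, rfl⟩
  intro n
  induction n with
  | zero =>
    intro w hw
    refine step 0 om w rfl (sz.sub 1 _ _ hch fun c hc => ?_) hw
    rw [mem_cbs] at hc
    rw [mem_pow]
    exact hc.1
  | succ n ih =>
    intro w hw
    obtain ⟨v, hv⟩ := al.ex (n + 1)
    exact step (n + 1) v w hv (sz.mono _ _ _ (Nat.le_succ _) (ih v hv)) hw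

end

theorem cbn (half : ALFStmt) (hszf : SZFStmt) (hrga : RGAStmt) : CBNStmt := by
  intro M _ _ n x hch hx
  obtain ⟨w, hw, f, hf⟩ := hx
  refine ⟨cbs x, cbs_img (hszf M) ((half M).ord _ w hw) hf
    (cbs_alf (half M) (hszf M) (hrga M) hch n w hw), fun c hc hcb => mem_cbs.2 ⟨hc, hcb⟩⟩

end AO
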