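import Pool.Agent.H98.AO.BStmts

/-!
AO: module CHN (the decomposition of closed sets).
-/

set_option linter.unusedVariables false
set_option linter.unusedSectionVars false
set_option synthInstance.maxSize 100000

namespace AO

open SW

section
variable {M : Type} [SetStr M] [ZF M]

/-- neighbours, and the point outside the exceptional part -/
noncomputable def chg (D T f x : M) : M :=
  bun (nb T x) (sep D (fun d => E x (nb T d) ∧ ¬ E x (app f d)))

theorem chg_df (D T f : M) : Fn1 (fun x : M => chg D T f x) := by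
  unfold chg; infer_instance

instance {D T f : M} {n : ℕ} {t : (Fin n → M) → M} [ht : DfT t] :
    DfT (fun v => chg D T f (t v)) := (chg_df D T f).comp1 ht

/-- the least closed subset of `D` which contains `x` -/
noncomputable def chx (D T f x : M) : M :=
  sep D (fun y => E x D ∧ ∀ C, Sub C D → E x C → (∀ z, E z C → Sub (chg D T f z) C) → E y C)

theorem chx_df (D T f : M) : Fn1 (fun x : M => chx D T f x) := by
  unfold chx; infer_instance

instance {D T f : M} {n : ℕ} {t : (Fin n → M) → M} [ht : DfT t] :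
    DfT (fun v => chx D T f (t v)) := (chx_df D T f).comp1 ht

theorem mem_chx {D T f x y : M} : E y (chx D T f x) ↔ E y D ∧ E x D ∧
    ∀ C, Sub C D → E x C → (∀ z, E z C → Sub (chg D T f z) C) → E y C := by
  unfold chx; rw [mem_sep]

/-- the members of the union of the closed sets with indices in `v` -/
noncomputable def chv (D T f e v : M) : M :=
  sep D (fun y => ∃ i, E i v ∧ E y (chx D T f (app e i)))

theorem chv_df (D T f e : M) : Fn1 (fun v : M => chv D T f e v) := by
  unfold chv; infer_instance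

theorem mem_chv {D T f e v y : M} : E y (chv D T f e v) ↔
    E y D ∧ ∃ i, E i v ∧ E y (chx D T f (app e i)) := by
  unfold chv; rw [mem_sep]

/-- the least index -/
noncomputable def chi (D T f e y : M) : M :=
  the (fun i => Ord i ∧ E y (chx D T f (app e i)) ∧ ∀ j, E j i → ¬ E y (chx D T f (app e j)))

theorem chi_df (D T f e : M) : Fn1 (fun y : M => chi D T f e y) := by
  unfold chi; infer_instance

theorem chi_spec {D T f e y i : M} (hi : Ord i) (h : E y (chx D T f (app e i))) :
    E y (chx D T f (app e (chi D T f e y))) ∧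
      (E (chi D T f e y) i ∨ chi D T f e y = i) := by
  obtain ⟨b, hb, hb1, hb2, hb3⟩ := ord_min (C := fun i : M => E y (chx D T f (app e i)))
    inferInstance hi h
  have : chi D T f e y = b := by
    refine the_eq ⟨hb, hb1, hb2⟩ ?_
    rintro c ⟨hc, hc1, hc2⟩
    rcases hc.tri hb with h1 | h1 | h1
    · exact absurd hc1 (hb2 c h1)
    · exact h1
    · exact absurd hb1 (hc2 b h1)
  rw [this]
  exact ⟨hb1, hb3⟩

theorem chn_main (al : AlfFacts M) (sz : SzFacts M)
    (rg : ∀ (n : ℕ) (w s : M), Alf (n + 1) w → Sub s w → Sz n s →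
      ∃ b, E b w ∧ ∀ a, E a s → E a b)
    (cl : ∀ (n : ℕ) (X c0 : M) (f : M → M), Fn1 f → Sub c0 X → Sz n c0 →
      (∀ x, E x X → Sub (f x) X ∧ Sz n (f x)) →
      ∃ C, Sub c0 C ∧ Sub C X ∧ Sz n C ∧ ∀ x, E x C → Sub (f x) C)
    (l T D : M) (n : ℕ) (ht : Tm l T) (hc : Clo T D) (hD : Sub D l) (hs : Sz (n + 2) D) :
    ∃ k d, Chn T n D k d := by
  obtain ⟨b, hb, hDb⟩ := ht.bdd _ D hs hD
  obtain ⟨f, hf1, hf2⟩ := ht.free b hb
  obtain ⟨k, hk, e, he⟩ := hs
  have hko : Ord k := al.ord _ k hk
  -- values of `chg`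
  have hgD : ∀ x, E x D → Sub (chg D T f x) D ∧ Sz 1 (chg D T f x) := by
    intro x hx
    unfold chg
    refine ⟨fun z hz => ?_, sz.bun 1 _ _ (ht.sz x (hD x hx)) (sz.fnt 1 _ ?_)⟩
    · rw [mem_bun, mem_sep] at hz
      rcases hz with hz | hz
      · exact hc x z hx hz
      · exact hz.1
    · by_cases h : ∃ d, E d (sep D (fun d => E x (nb T d) ∧ ¬ E x (app f d)))
      · obtain ⟨d, hd⟩ := h
        have : sep D (fun d => E x (nb T d) ∧ ¬ E x (app f d)) = ins d emp := by
          refine ext fun z => ?_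
          rw [mem_ins]
          constructor
          · intro hz
            right
            by_contra hne
            rw [mem_sep] at hz hd
            rcases hf2 z d x (hDb z hz.1) (hDb d hd.1) hne hz.2.1 hd.2.1 with h1 | h1
            · exact hz.2.2 h1
            · exact hd.2.2 h1
          · rintro (hz | rfl)
            · exact absurd hz (not_mem_emp z)
            · exact hd
        rw [this]
        exact finF.ins finF.emp
      · have : sep D (fun d => E x (nb T d) ∧ ¬ E x (app f d)) = emp :=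
          eq_emp fun z hz => h ⟨z, hz⟩
        rw [this]
        exact finF.emp
  -- the sets `chx`
  have hx1 : ∀ x, E x D → Sz 1 (chx D T f x) := by
    intro x hx
    obtain ⟨C, h1, h2, h3, h4⟩ := cl 1 D (sing x) (fun x => chg D T f x) (chg_df D T f)
      (fun z hz => by rw [mem_sing] at hz; rw [hz]; exact hx)
      (sz.fnt 1 _ (by
        have : sing x = ins x emp := ext fun z => by
          rw [mem_sing, mem_ins]
          exact ⟨fun h => Or.inr h, fun h => h.resolve_left (not_mem_emp z)⟩
        rw [this]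
        exact finF.ins finF.emp)) hgD
    refine sz.sub 1 _ _ h3 fun y hy => ?_
    exact (mem_chx.1 hy).2.2 C h2 (h1 x (by rw [mem_sing])) h4
  have hx2 : ∀ x, E x D → E x (chx D T f x) := fun x hx =>
    mem_chx.2 ⟨hx, hx, fun C _ h _ => h⟩
  have hx3 : ∀ x z, E z (chx D T f x) → Sub (chg D T f z) (chx D T f x) := by
    intro x z hz y hy
    have hz' := mem_chx.1 hz
    refine mem_chx.2 ⟨(hgD z hz'.1).1 y hy, hz'.2.1, fun C h1 h2 h3 => ?_⟩
    exact h3 z (hz'.2.2 C h1 h2 h3) y hy
  -- the union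
  have hv1 : ∀ v z, E z (chv D T f e v) → Sub (chg D T f z) (chv D T f e v) := by
    intro v z hz y hy
    obtain ⟨hzD, i, hi, hzi⟩ := mem_chv.1 hz
    exact mem_chv.2 ⟨(hgD z hzD).1 y hy, i, hi, hx3 _ z hzi y hy⟩
  have hv2 : ∀ v, E v k → Sz (n + 1) (chv D T f e v) := by
    intro v hv
    have hF : Fn1 (fun i : M => chx D T f (app e i)) := by infer_instance
    have hF2 : Fn1 (fun i : M => chx D T f (app e i)) := hF
    have hsv : Sz (n + 1) (sep v (fun i => E (app e i) D)) :=
      sz.sub _ _ _ (al.small (n + 1) k v hk hv) fun z hz => by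
        rw [mem_sep] at hz; exact hz.1
    refine sz.sub (n + 1) _ _ (sz.iUn (n + 1) (sep v (fun i => E (app e i) D))
      (fun i : M => chx D T f (app e i)) hF hsv fun i hi => ?_) fun y hy => ?_
    · rw [mem_sep] at hi
      exact sz.mono 1 _ _ (by omega) (hx1 _ hi.2)
    · obtain ⟨_, i, hi, hyi⟩ := mem_chv.1 hy
      rw [mem_sUn]
      refine ⟨chx D T f (app e i), ?_, hyi⟩
      rw [mem_img' hF]
      exact ⟨i, by rw [mem_sep]; exact ⟨hi, (mem_chx.1 hyi).2.1⟩, rfl⟩
  have hd : ∀ v, E v k → app (gr k (fun v => chv D T f e v)) v = chv D T f e v := fun v hv =>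
    app_gr (chv_df D T f e) hv
  have hval : ∀ y, E y D → ∃ i, E i k ∧ E y (chx D T f (app e i)) := by
    intro y hy
    obtain ⟨i, hi, hyi⟩ := he y hy
    exact ⟨i, hi, by rw [← hyi]; exact hx2 y hy⟩
  refine ⟨k, gr k (fun v => chv D T f e v), hk, fun v hv => ?_, fun v v' hv hv' => ?_,
    fun c hcD hcb => ?_, fun v c hv hcv hcb => ?_⟩
  · rw [hd v hv]
    refine ⟨fun d z hdv hz => ?_, fun z hz => (mem_chv.1 hz).1, hv2 v hv, fun d hdD hdv => ?_⟩
    · refine hv1 v d hdv z ?_
      unfold chg
      rw [mem_bun]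
      exact Or.inl hz
    · have hsub : Sub (inter (chv D T f e v) (nb T d)) (inter (app f d) (nb T d)) := by
        intro z hz
        rw [mem_inter] at hz ⊢
        refine ⟨?_, hz.2⟩
        by_contra hzf
        apply hdv
        refine hv1 v z hz.1 d ?_
        unfold chg
        rw [mem_bun, mem_sep]
        exact Or.inr ⟨hdD, hz.2, hzf⟩
      rw [← sz.cb]
      refine sz.sub 0 _ _ ?_ hsub
      rw [sz.cb]
      by_cases hne : ∃ z, E z (nb T d)
      · exact ht.seg d _ (hD d hdD) (hf1 d (hDb d hdD) hne)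
      · have : inter (app f d) (nb T d) = emp := eq_emp fun z hz => by
          rw [mem_inter] at hz
          exact hne ⟨z, hz.2⟩
        rw [this, ← sz.cb]
        exact sz.fnt 0 _ finF.emp
  · rw [hd v hv, hd v' (hko.trans hv hv')]
    intro y hy
    obtain ⟨hyD, i, hi, hyi⟩ := mem_chv.1 hy
    exact mem_chv.2 ⟨hyD, i, (hko.mem hv).trans hv' hi, hyi⟩
  · have hsb : Sub (img c (fun y => chi D T f e y)) k := by
      intro i hi
      rw [mem_img' (chi_df D T f e)] at hi
      obtain ⟨y, hy, rfl⟩ := hi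
      obtain ⟨i, hi, hyi⟩ := hval y (hcD y hy)
      rcases (chi_spec (hko.mem hi) hyi).2 with h | h
      · exact hko.trans hi h
      · rw [h]; exact hi
    have hcs : Sz (n + 1) (img c (fun y => chi D T f e y)) :=
      sz.img _ _ _ (chi_df D T f e) (sz.mono 0 _ _ (Nat.zero_le _) ((sz.cb c).2 hcb))
    obtain ⟨v, hv, hvb⟩ := rg (n + 1) k _ hk hsb hcs
    refine ⟨v, hv, fun y hy => ?_⟩
    rw [hd v hv]
    obtain ⟨i, hi, hyi⟩ := hval y (hcD y hy)
    refine mem_chv.2 ⟨hcD y hy, chi D T f e y, hvb _ ?_, (chi_spec (hko.mem hi) hyi).1⟩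
    rw [mem_img' (chi_df D T f e)]
    exact ⟨y, hy, rfl⟩
  · rw [hd v hv] at hcv
    have hvo := hko.mem hv
    have hsb : Sub (img c (fun y => chi D T f e y)) v := by
      intro i hi
      rw [mem_img' (chi_df D T f e)] at hi
      obtain ⟨y, hy, rfl⟩ := hi
      obtain ⟨_, i, hi, hyi⟩ := mem_chv.1 (hcv y hy)
      rcases (chi_spec (hvo.mem hi) hyi).2 with h | h
      · exact hvo.trans hi h
      · rw [h]; exact hi
    have hcs : Cb (img c (fun y => chi D T f e y)) :=
      (sz.cb _).1 (sz.img _ _ _ (chi_df D T f e) ((sz.cb c).2 hcb))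
    by_cases h : ∀ v', E v' v → ∃ u, E u (img c (fun y => chi D T f e y)) ∧ (E v' u ∨ v' = u)
    · exact Or.inr ⟨_, hcs, hsb, h⟩
    · left
      push Not at h
      obtain ⟨v', hv', h⟩ := h
      refine ⟨v', hv', fun y hy => ?_⟩
      rw [hd v' (hko.trans hv hv')]
      have hyi : E (chi D T f e y) (img c (fun y => chi D T f e y)) := by
        rw [mem_img' (chi_df D T f e)]
        exact ⟨y, hy, rfl⟩
      obtain ⟨hyD, i, hi, hyi'⟩ := mem_chv.1 (hcv y hy)
      refine mem_chv.2 ⟨hyD, chi D T f e y, ?_, (chi_spec (hvo.mem hi) hyi').1⟩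
      have h1 := h _ hyi
      rcases (hvo.mem hv').tri (hvo.mem (hsb _ hyi)) with h2 | h2 | h2
      · exact absurd h2 h1.1
      · exact absurd h2 h1.2
      · exact h2

end

theorem chn (half : ALFStmt) (hszf : SZFStmt) (hcln : CLNStmt) (hrga : RGAStmt) : CHNStmt := by
  intro M _ _ l T D n ht hc hD hs
  exact chn_main (half M) (hszf M) (hrga M) (hcln M) l T D n ht hc hD hs

end AO
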