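import Pool.Agent.H98.AO.BStmts

/-!
AO: module CLN (closing off under small sets of values).
-/

set_option linter.unusedVariables false
set_option linter.unusedSectionVars false
set_option synthInstance.maxSize 100000

namespace AO

open SW

theorem cln (hszf : SZFStmt) : CLNStmt := by
  intro M _ _ N X c0 f hf h0 hc0 hX
  have sz := hszf M
  have hH : Fn1 (fun u : M => bun u (sUn (img u (fun x => f x)))) := by infer_instance
  have hor : Fn1 (fun n : M => orec c0 (fun u => bun u (sUn (img u (fun x => f x)))) n) := by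
    infer_instance
  have hstep : ∀ n, E n om →
      Sub (orec c0 (fun u => bun u (sUn (img u (fun x => f x)))) n) X ∧
        Sz N (orec c0 (fun u => bun u (sUn (img u (fun x => f x)))) n) := by
    refine om_ind (C := fun n : M => Sub (orec c0 (fun u => bun u (sUn (img u (fun x => f x)))) n) X ∧
        Sz N (orec c0 (fun u => bun u (sUn (img u (fun x => f x)))) n)) inferInstance ?_ ?_
    · rw [orec_zero hH]
      exact ⟨h0, hc0⟩
    · intro n hn ih
      rw [orec_suc hH hn]
      refine ⟨fun z hz => ?_, sz.bun N _ _ ih.2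
        (sz.iUn N _ (fun x => f x) hf ih.2 fun y hy => (hX y (ih.1 y hy)).2)⟩
      rw [mem_bun, mem_sUn] at hz
      rcases hz with hz | ⟨y, hy, hz⟩
      · exact ih.1 z hz
      · rw [mem_img' inferInstance] at hy
        obtain ⟨x, hx, rfl⟩ := hy
        exact (hX x (ih.1 x hx)).1 z hz
  refine ⟨sUn (img om (fun n => orec c0 (fun u => bun u (sUn (img u (fun x => f x)))) n)),
    ?_, ?_, ?_, ?_⟩
  · intro z hz
    rw [mem_sUn]
    refine ⟨c0, ?_, hz⟩
    rw [mem_img' inferInstance]
    exact ⟨emp, emp_mem_om, (orec_zero hH).symm⟩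
  · intro z hz
    rw [mem_sUn] at hz
    obtain ⟨y, hy, hz⟩ := hz
    rw [mem_img' inferInstance] at hy
    obtain ⟨n, hn, rfl⟩ := hy
    exact (hstep n hn).1 z hz
  · exact sz.iUn N _ _ hor (sz.om N) fun n hn => (hstep n hn).2
  · intro x hx z hz
    rw [mem_sUn] at hx ⊢
    obtain ⟨y, hy, hx⟩ := hx
    rw [mem_img' inferInstance] at hy
    obtain ⟨n, hn, rfl⟩ := hy
    refine ⟨orec c0 (fun u => bun u (sUn (img u (fun x => f x)))) (suc n), ?_, ?_⟩
    · rw [mem_img' inferInstance]
      exact ⟨suc n, suc_mem_om hn, rfl⟩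
    · rw [orec_suc hH hn, mem_bun, mem_sUn]
      right
      refine ⟨f x, ?_, hz⟩
      rw [mem_img' inferInstance]
      exact ⟨x, hx, rfl⟩

end AO
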