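import Pool.Agent.H74.AO.HStmts
import Mathlib.Topology.MetricSpace.PiNat

/-!
AO: module HBX (measurable sets are projections of closed sets, given by lists of boxes).
-/

set_option linter.unusedVariables false
set_option linter.unusedSectionVars false
set_option synthInstance.maxSize 100000

namespace AO

open SW MeasureTheory

/-- the data of the box number `n` -/
noncomputable def hbxd (n : ℕ) : (Fin 3 → ℕ) × (Fin 3 → ℕ) × List ℕ :=
  ((Encodable.decode n : Option ((Fin 3 → ℕ) × (Fin 3 → ℕ) × List ℕ))).getD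
    (fun _ => 0, fun _ => 0, [])

/-- the box given by the data -/
def hbxS (d : (Fin 3 → ℕ) × (Fin 3 → ℕ) × List ℕ) : Set ((Fin 3 → ℝ) × (ℕ → ℕ)) :=
  {p | (∀ c, (CUR.qq (d.1 c) : ℝ) < p.1 c ∧ p.1 c < (CUR.qq (d.2.1 c) : ℝ)) ∧
    ∀ k v, d.2.2[k]? = some v → p.2 k = v}

open Classical in
/-- the boxes disjoint from `F` -/
noncomputable def hbxB (F : Set ((Fin 3 → ℝ) × (ℕ → ℕ))) : Bxs where
  lo n := if Disjoint (hbxS (hbxd n)) F then (hbxd n).1 else fun _ => 0
  hi n := if Disjoint (hbxS (hbxd n)) F then (hbxd n).2.1 else fun _ => 0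
  u n k v := (hbxd n).2.2[k]? = some v
  fin n := ⟨(hbxd n).2.2.length, fun k v h => by
    by_contra hk
    rw [List.getElem?_eq_none (not_lt.1 hk)] at h
    exact absurd h (by simp)⟩

theorem hbx_closed (F : Set ((Fin 3 → ℝ) × (ℕ → ℕ))) (hF : IsClosed F) (x : Fin 3 → ℝ)
    (u : ℕ → ℕ) : (x, u) ∈ F ↔ ∀ n, ¬ (hbxB F).In n x u := by
  constructor
  · rintro h n ⟨h1, h2⟩
    by_cases hd : Disjoint (hbxS (hbxd n)) F
    · have hm : (x, u) ∈ hbxS (hbxd n) := ⟨fun c => by
        have := h1 c
        simp only [hbxB, if_pos hd] at this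
        exact this, h2⟩
      exact Set.disjoint_left.1 hd hm h
    · have := h1 0
      simp only [hbxB, if_neg hd] at this
      exact absurd (this.1.trans this.2) (lt_irrefl _)
  · intro h
    by_contra hxu
    obtain ⟨U, V, hU, hV, hxU, huV, hUV⟩ := isOpen_prod_iff.1 hF.isOpen_compl x u hxu
    obtain ⟨ε, hε, hb⟩ := Metric.isOpen_iff.1 hU x hxU
    obtain ⟨s, ⟨y, n, rfl⟩, hus, hsV⟩ :=
      (PiNat.isTopologicalBasis_cylinders (fun _ : ℕ => ℕ)).exists_subset_of_mem_open huV hV
    have hlo : ∀ c : Fin 3, ∃ j : ℕ, x c - ε < CUR.qq j ∧ (CUR.qq j : ℝ) < x c := by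
      intro c
      obtain ⟨q, h1, h2⟩ := exists_rat_btwn (show x c - ε < x c by linarith)
      obtain ⟨j, rfl⟩ := CUR.qq_surj q
      exact ⟨j, h1, h2⟩
    have hhi : ∀ c : Fin 3, ∃ j : ℕ, x c < CUR.qq j ∧ (CUR.qq j : ℝ) < x c + ε := by
      intro c
      obtain ⟨q, h1, h2⟩ := exists_rat_btwn (show x c < x c + ε by linarith)
      obtain ⟨j, rfl⟩ := CUR.qq_surj q
      exact ⟨j, h1, h2⟩
    choose lo hlo1 hlo2 using hlo
    choose hi hhi1 hhi2 using hhi
    have hn : hbxd (Encodable.encode ((lo, hi, (List.range n).map u) :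
        (Fin 3 → ℕ) × (Fin 3 → ℕ) × List ℕ)) = (lo, hi, (List.range n).map u) := by
      unfold hbxd
      rw [Encodable.encodek]
      rfl
    have hdis : Disjoint (hbxS (lo, hi, (List.range n).map u)) F := by
      rw [Set.disjoint_left]
      rintro ⟨x', u'⟩ ⟨h1, h2⟩ hF'
      refine hUV (show (x', u') ∈ U ×ˢ V from ⟨hb ?_, hsV ?_⟩) hF'
      · rw [Metric.mem_ball, dist_pi_lt_iff hε]
        intro c
        have h3 := h1 c
        have h4 := hlo1 c
        have h5 := hhi2 c
        simp only at h3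
        rw [Real.dist_eq, abs_lt]
        constructor <;> linarith [h3.1, h3.2]
      · intro i hi'
        have h3 : u' i = u i := h2 i (u i) (by
          simp only
          rw [List.getElem?_map, List.getElem?_range hi']
          rfl)
        show u' i = y i
        rw [h3]
        exact hus i hi'
    refine h (Encodable.encode ((lo, hi, (List.range n).map u) :
        (Fin 3 → ℕ) × (Fin 3 → ℕ) × List ℕ)) ⟨fun c => ?_, fun k v hkv => ?_⟩
    · simp only [hbxB]
      rw [hn, if_pos hdis, if_pos hdis]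
      exact ⟨hlo2 c, hhi1 c⟩
    · simp only [hbxB] at hkv
      rw [hn] at hkv
      simp only at hkv
      rw [List.getElem?_map] at hkv
      by_cases hk : k < n
      · rw [List.getElem?_range hk] at hkv
        simpa using hkv
      · rw [List.getElem?_eq_none (by simpa using hk)] at hkv
        simp at hkv

theorem ao_hbx : HBXStmt := by
  intro D hD
  have hA := hD.analyticSet
  rw [AnalyticSet] at hA
  rcases hA with rfl | ⟨f, hf, hr⟩
  · refine ⟨hbxB ∅, fun x => ?_⟩
    simp only [Set.mem_empty_iff_false, false_iff, not_exists]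
    intro u h
    exact ((hbx_closed ∅ isClosed_empty x u).2 h).elim
  · have hF : IsClosed {p : (Fin 3 → ℝ) × (ℕ → ℕ) | f p.2 = p.1} :=
      isClosed_eq (hf.comp continuous_snd) continuous_fst
    refine ⟨hbxB {p | f p.2 = p.1}, fun x => ?_⟩
    rw [← hr]
    constructor
    · rintro ⟨u, hu⟩
      exact ⟨u, (hbx_closed _ hF x u).1 hu⟩
    · rintro ⟨u, hu⟩
      exact ⟨u, (hbx_closed _ hF x u).2 hu⟩

end AO
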