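import Pool.Agent.H74.AO.HStmts
import Pool.Agent.H31.CUR.R2
import Pool.Agent.H31.CUR.R3
import Pool.Agent.H31.CUR.R4
import Pool.Agent.H78.CUR.NU
import Pool.Agent.H78.CUR.R1

/-!
AO: module HRL (the real numbers of the model).
-/

set_option linter.unusedVariables false
set_option linter.unusedSectionVars false
set_option synthInstance.maxSize 100000

namespace AO

open SW MeasureTheory

theorem hrl_trp {N : Type} [SetStr N] [ZF N] {x y z R : N} :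
    Trp x y z R ↔ E (opair (opair x y) z) R := CUR.r4_tri

section
variable {N : Type} [SetStr N] [ZF N]

theorem hrl_real (K P Q L : N) [Field {x : N // E x K}] [LinearOrder {x : N // E x K}]
    [IsStrictOrderedRing {x : N // E x K}]
    (hP : ∀ a b d, Trp a b d P ↔ ∃ (ha : E a K) (hb : E b K) (hd : E d K),
      (⟨a, ha⟩ : {x : N // E x K}) + ⟨b, hb⟩ = ⟨d, hd⟩)
    (hQ : ∀ a b d, Trp a b d Q ↔ ∃ (ha : E a K) (hb : E b K) (hd : E d K),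
      (⟨a, ha⟩ : {x : N // E x K}) * ⟨b, hb⟩ = ⟨d, hd⟩)
    (hL : ∀ a b, PairIn a b L ↔ ∃ (ha : E a K) (hb : E b K),
      (⟨a, ha⟩ : {x : N // E x K}) ≤ ⟨b, hb⟩)
    (hlub : ∀ A : N, (∃ a : {x : N // E x K}, E a.1 A) →
      (∃ b : {x : N // E x K}, ∀ a : {x : N // E x K}, E a.1 A → a ≤ b) →
      ∃ b : {x : N // E x K}, IsLUB {a : {x : N // E x K} | E a.1 A} b) :
    IsRealNumbers K P Q L (0 : {x : N // E x K}).1 (1 : {x : N // E x K}).1 := by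
  have eP : ∀ a b d : {x : N // E x K}, Trp a.1 b.1 d.1 P ↔ a + b = d := fun a b d =>
    (hP _ _ _).trans ⟨fun ⟨_, _, _, h⟩ => h, fun h => ⟨a.2, b.2, d.2, h⟩⟩
  have eQ : ∀ a b d : {x : N // E x K}, Trp a.1 b.1 d.1 Q ↔ a * b = d := fun a b d =>
    (hQ _ _ _).trans ⟨fun ⟨_, _, _, h⟩ => h, fun h => ⟨a.2, b.2, d.2, h⟩⟩
  have eL : ∀ a b : {x : N // E x K}, PairIn a.1 b.1 L ↔ a ≤ b := fun a b =>
    (hL _ _).trans ⟨fun ⟨_, _, h⟩ => h, fun h => ⟨a.2, b.2, h⟩⟩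
  constructor
  · exact (0 : {x : N // E x K}).2
  · exact (1 : {x : N // E x K}).2
  · exact fun h => zero_ne_one (Subtype.ext h : (0 : {x : N // E x K}) = 1)
  · refine ⟨fun a b ha hb => ?_, fun a b c c' ha hb h h' => ?_⟩
    · exact ⟨_, ((⟨a, ha⟩ : {x : N // E x K}) + ⟨b, hb⟩).2, (eP ⟨a, ha⟩ ⟨b, hb⟩ _).2 rfl⟩
    · obtain ⟨_, _, _, h⟩ := (hP _ _ _).1 h
      obtain ⟨_, _, _, h'⟩ := (hP _ _ _).1 h'
      exact congrArg Subtype.val (h.symm.trans h')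
  · refine ⟨fun a b ha hb => ?_, fun a b c c' ha hb h h' => ?_⟩
    · exact ⟨_, ((⟨a, ha⟩ : {x : N // E x K}) * ⟨b, hb⟩).2, (eQ ⟨a, ha⟩ ⟨b, hb⟩ _).2 rfl⟩
    · obtain ⟨_, _, _, h⟩ := (hQ _ _ _).1 h
      obtain ⟨_, _, _, h'⟩ := (hQ _ _ _).1 h'
      exact congrArg Subtype.val (h.symm.trans h')
  · intro a b c ha hb h
    obtain ⟨_, _, hc, h⟩ := (hP _ _ _).1 h
    exact (hP _ _ _).2 ⟨hb, ha, hc, (add_comm _ _).trans h⟩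
  · intro a b c x y s ha hb hc h1 h2 h3
    obtain ⟨_, _, hx, h1⟩ := (hP _ _ _).1 h1
    obtain ⟨_, _, hs, h2⟩ := (hP _ _ _).1 h2
    obtain ⟨_, _, hy, h3⟩ := (hP _ _ _).1 h3
    exact (hP _ _ _).2 ⟨ha, hy, hs, by rw [← h3, ← h2, ← h1, add_assoc]⟩
  · intro a ha
    exact (eP 0 ⟨a, ha⟩ ⟨a, ha⟩).2 (zero_add _)
  · intro a ha
    exact ⟨_, (-(⟨a, ha⟩ : {x : N // E x K})).2, (eP ⟨a, ha⟩ _ 0).2 (add_neg_cancel _)⟩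
  · intro a b c ha hb h
    obtain ⟨_, _, hc, h⟩ := (hQ _ _ _).1 h
    exact (hQ _ _ _).2 ⟨hb, ha, hc, (mul_comm _ _).trans h⟩
  · intro a b c x y s ha hb hc h1 h2 h3
    obtain ⟨_, _, hx, h1⟩ := (hQ _ _ _).1 h1
    obtain ⟨_, _, hs, h2⟩ := (hQ _ _ _).1 h2
    obtain ⟨_, _, hy, h3⟩ := (hQ _ _ _).1 h3
    exact (hQ _ _ _).2 ⟨ha, hy, hs, by rw [← h3, ← h2, ← h1, mul_assoc]⟩
  · intro a ha
    exact (eQ 1 ⟨a, ha⟩ ⟨a, ha⟩).2 (one_mul _)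
  · intro a ha hne
    refine ⟨_, ((⟨a, ha⟩ : {x : N // E x K})⁻¹).2, (eQ ⟨a, ha⟩ _ 1).2 (mul_inv_cancel₀ ?_)⟩
    intro h
    exact hne (congrArg Subtype.val h)
  · intro a b c s t x y ha hb hc h1 h2 h3 h4
    obtain ⟨_, _, hs, h1⟩ := (hP _ _ _).1 h1
    obtain ⟨_, _, ht, h2⟩ := (hQ _ _ _).1 h2
    obtain ⟨_, _, hx, h3⟩ := (hQ _ _ _).1 h3
    obtain ⟨_, _, hy, h4⟩ := (hQ _ _ _).1 h4
    exact (hP _ _ _).2 ⟨hx, hy, ht, by rw [← h3, ← h4, ← h2, ← h1, mul_add]⟩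
  · intro a ha
    exact (eL ⟨a, ha⟩ ⟨a, ha⟩).2 le_rfl
  · intro a b ha hb h h'
    obtain ⟨_, _, h⟩ := (hL _ _).1 h
    obtain ⟨_, _, h'⟩ := (hL _ _).1 h'
    exact congrArg Subtype.val (le_antisymm h h')
  · intro a b c ha hb hc h h'
    obtain ⟨_, _, h⟩ := (hL _ _).1 h
    obtain ⟨_, _, h'⟩ := (hL _ _).1 h'
    exact (hL _ _).2 ⟨ha, hc, h.trans h'⟩
  · intro a b ha hb
    rcases le_total (⟨a, ha⟩ : {x : N // E x K}) ⟨b, hb⟩ with h | h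
    · exact Or.inl ((hL _ _).2 ⟨ha, hb, h⟩)
    · exact Or.inr ((hL _ _).2 ⟨hb, ha, h⟩)
  · intro a b c x y ha hb hc h1 h2 h3
    obtain ⟨_, _, h1⟩ := (hL _ _).1 h1
    obtain ⟨_, _, hx, h2⟩ := (hP _ _ _).1 h2
    obtain ⟨_, _, hy, h3⟩ := (hP _ _ _).1 h3
    exact (hL _ _).2 ⟨hx, hy, by rw [← h2, ← h3]; exact add_le_add_left h1 _⟩
  · intro a b c ha hb h1 h2 h3
    obtain ⟨_, _, h1⟩ := (hL _ _).1 h1
    obtain ⟨_, _, h2⟩ := (hL _ _).1 h2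
    obtain ⟨_, _, hc, h3⟩ := (hQ _ _ _).1 h3
    refine (eL 0 ⟨c, hc⟩).2 ?_
    rw [← h3]
    exact mul_nonneg h1 h2
  · intro S hS hne hb
    obtain ⟨a, ha⟩ := hne
    obtain ⟨b, hbK, hb⟩ := hb
    obtain ⟨s, hs⟩ := hlub S ⟨⟨a, hS a ha⟩, ha⟩ ⟨⟨b, hbK⟩, fun a ha => by
      obtain ⟨_, _, h⟩ := (hL _ _).1 (hb a.1 ha)
      exact h⟩
    refine ⟨s.1, s.2, fun a ha => ?_, fun b hbK hb => ?_⟩
    · exact (eL ⟨a, hS a ha⟩ s).2 (hs.1 (show (⟨a, hS a ha⟩ : {x : N // E x K}) ∈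
        {a : {x : N // E x K} | E a.1 S} from ha))
    · refine (eL s ⟨b, hbK⟩).2 (hs.2 fun a ha => ?_)
      obtain ⟨_, _, h⟩ := (hL _ _).1 (hb a.1 ha)
      exact h

end

theorem ao_hrl : HRLStmt := by
  intro N _ _ c
  obtain ⟨l⟩ := CUR.cur_r4 CUR.cur_r1 (CUR.cur_r2 CUR.cur_nu CUR.cur_r1)
    (CUR.cur_r3 CUR.cur_nu CUR.cur_r1) N c
  have f1 := CUR.cur_r1 N c
  let _ := l.fld
  let _ := l.lo
  have _ := l.sor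
  have hLc : ∀ a b : N, PairIn a b (sep (prod (CUR.KS c) (CUR.KS c))
      (fun z => ∃ a b, z = opair a b ∧ (E (opair a b) l.lt ∨ a = b))) ↔
      ∃ (ha : E a (CUR.KS c)) (hb : E b (CUR.KS c)),
        (⟨a, ha⟩ : {x : N // E x (CUR.KS c)}) ≤ ⟨b, hb⟩ := by
    intro a b
    rw [pairIn_iff, mem_sep, mem_prod]
    constructor
    · rintro ⟨⟨ha, hb⟩, a', b', h, h'⟩
      rw [opair_inj] at h
      obtain ⟨rfl, rfl⟩ := h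
      refine ⟨ha, hb, ?_⟩
      rcases h' with h' | h'
      · exact le_of_lt ((l.hlt ⟨a, ha⟩ ⟨b, hb⟩).1 (pairIn_iff.2 h'))
      · exact le_of_eq (Subtype.ext h')
    · rintro ⟨ha, hb, h⟩
      refine ⟨⟨ha, hb⟩, a, b, rfl, ?_⟩
      rcases h.lt_or_eq with h | h
      · exact Or.inl (pairIn_iff.1 ((l.hlt ⟨a, ha⟩ ⟨b, hb⟩).2 h))
      · exact Or.inr (congrArg Subtype.val h)
  refine ⟨inter l.ad (prod (prod (CUR.KS c) (CUR.KS c)) (CUR.KS c)),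
    inter l.mu (prod (prod (CUR.KS c) (CUR.KS c)) (CUR.KS c)), _, _, _,
    hrl_real (CUR.KS c) _ _ _ (fun a b d => ?_) (fun a b d => ?_) hLc l.lub, ?_⟩
  · rw [hrl_trp, mem_inter, mem_prod, mem_prod]
    constructor
    · rintro ⟨h, ⟨ha, hb⟩, hd⟩
      exact ⟨ha, hb, hd, (l.had ⟨a, ha⟩ ⟨b, hb⟩ ⟨d, hd⟩).1 (CUR.r4_tri.2 h)⟩
    · rintro ⟨ha, hb, hd, h⟩
      exact ⟨CUR.r4_tri.1 ((l.had ⟨a, ha⟩ ⟨b, hb⟩ ⟨d, hd⟩).2 h), ⟨ha, hb⟩, hd⟩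
  · rw [hrl_trp, mem_inter, mem_prod, mem_prod]
    constructor
    · rintro ⟨h, ⟨ha, hb⟩, hd⟩
      exact ⟨ha, hb, hd, (l.hmu ⟨a, ha⟩ ⟨b, hb⟩ ⟨d, hd⟩).1 (CUR.r4_tri.2 h)⟩
    · rintro ⟨ha, hb, hd, h⟩
      exact ⟨CUR.r4_tri.1 ((l.hmu ⟨a, ha⟩ ⟨b, hb⟩ ⟨d, hd⟩).2 h), ⟨ha, hb⟩, hd⟩
  · intro a b x y hax hby
    have ha : E a (CUR.KS c) := (f1.memK a).2 ⟨x, hax⟩
    have hb : E b (CUR.KS c) := (f1.memK b).2 ⟨y, hby⟩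
    have h1 : l.φ ⟨a, ha⟩ = x := f1.uniqr a _ _ (l.cut ⟨a, ha⟩) hax
    have h2 : l.φ ⟨b, hb⟩ = y := f1.uniqr b _ _ (l.cut ⟨b, hb⟩) hby
    rw [hLc]
    constructor
    · rintro ⟨_, _, h⟩
      rw [← not_lt, ← h1, ← h2, ← l.φlt]
      exact not_lt.2 h
    · intro h
      refine ⟨ha, hb, ?_⟩
      rw [← not_lt, l.φlt, h1, h2]
      exact not_lt.2 h

end AO
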