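import Pool.Agent.H74.AO.HStmts

/-!
AO: module HTR (analytic sets are given by trees).
-/

set_option linter.unusedVariables false
set_option linter.unusedSectionVars false
set_option synthInstance.maxSize 100000

namespace AO

open SW MeasureTheory Filter

/-- the data of the nodes -/
abbrev HtrS (k : ℕ) : Type := (Fin k → List Bool) × List ℕ

/-- the relation between nodes -/
def htrR {k : ℕ} (f : (ℕ → ℕ) → (Fin k → Rl)) (s s' : ℕ) : Prop :=
  ∃ d d' : HtrS k, Encodable.encode d = s ∧ Encodable.encode d' = s' ∧
    (∀ i, ∃ c, d'.1 i = d.1 i ++ [c]) ∧ (∃ m, d'.2 = d.2 ++ [m]) ∧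
    ∃ u : ℕ → ℕ, (∀ j v, d'.2[j]? = some v → u j = v) ∧
      ∀ i j c, (d'.1 i)[j]? = some c → f u i j = c

/-- the requirements -/
def htrP (k : ℕ) (s i j b : ℕ) : Prop :=
  ∃ (d : HtrS k) (h : i < k) (c : Bool), Encodable.encode d = s ∧
    (d.1 ⟨i, h⟩)[j]? = some c ∧ b = c.toNat

theorem htr_mono {k : ℕ} (f : (ℕ → ℕ) → (Fin k → Rl)) (s s' i j b : ℕ) (hR : htrR f s s')
    (hP : htrP k s i j b) : htrP k s' i j b := by
  obtain ⟨d, d', rfl, rfl, h1, h2, h3⟩ := hR
  obtain ⟨e, h, c, he, hc, hb⟩ := hP
  have := Encodable.encode_injective he
  subst this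
  refine ⟨d', h, c, rfl, ?_, hb⟩
  obtain ⟨c', hc'⟩ := h1 ⟨i, h⟩
  rw [hc', List.getElem?_append_left]
  · exact hc
  · by_contra hn
    rw [List.getElem?_eq_none (not_lt.1 hn)] at hc
    exact absurd hc (by simp)

theorem htr_cons (k s i j : ℕ) : ¬ (htrP k s i j 0 ∧ htrP k s i j 1) := by
  rintro ⟨⟨d, h, c, hd, hc, hb⟩, d', h', c', hd', hc', hb'⟩
  have : d = d' := Encodable.encode_injective (hd.trans hd'.symm)
  subst this
  rw [hc] at hc'
  have := Option.some.inj hc'
  subst this
  omega

theorem htr_main {k : ℕ} (f : (ℕ → ℕ) → (Fin k → Rl)) (hf : Continuous f) :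
    Tree k (Set.range f) (Encodable.encode ((fun _ => [], []) : HtrS k)) (htrR f) (htrP k) := by
  refine ⟨htr_mono f, htr_cons k, fun x => ⟨?_, ?_⟩⟩
  · rintro ⟨u, rfl⟩
    refine ⟨fun n => Encodable.encode ((fun i => (List.range n).map (f u i),
      (List.range n).map u) : HtrS k), by simp, fun n => ?_, fun n i j => ?_⟩
    · refine ⟨_, _, rfl, rfl, fun i => ⟨f u i n, ?_⟩, ⟨u n, ?_⟩, u, fun j v h => ?_,
        fun i j c h => ?_⟩
      · simp [List.range_succ]
      · simp [List.range_succ]
      · simp only at h
        rw [List.getElem?_map] at h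
        by_cases hj : j < n + 1
        · rw [List.getElem?_range hj] at h
          simpa using h
        · rw [List.getElem?_eq_none (by simpa using hj)] at h
          simp at h
      · simp only at h
        rw [List.getElem?_map] at h
        by_cases hj : j < n + 1
        · rw [List.getElem?_range hj] at h
          simpa using h
        · rw [List.getElem?_eq_none (by simpa using hj)] at h
          simp at h
    · have key : ∀ b, htrP k (Encodable.encode ((fun i => (List.range n).map (f u i),
          (List.range n).map u) : HtrS k)) i j b → b = (f u i j).toNat := by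
        rintro b ⟨d, h, c, hd, hc, hb⟩
        have := Encodable.encode_injective hd
        subst this
        simp only at hc
        rw [List.getElem?_map] at hc
        by_cases hj : j < n
        · rw [List.getElem?_range hj] at hc
          have h2 : f u i j = c := by simpa using hc
          rw [hb, h2]
        · rw [List.getElem?_eq_none (by simpa using hj)] at hc
          simp at hc
      constructor
      · intro h
        have := key 1 h
        cases hfu : f u i j
        · rw [hfu] at this; simp at this
        · rfl
      · intro h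
        have := key 0 h
        cases hfu : f u i j
        · rfl
        · rw [hfu] at this; simp at this
  · rintro ⟨g, g0, hg, hx⟩
    -- the data of the nodes of the branch
    have hd : ∀ n, ∃ d : HtrS k, Encodable.encode d = g n := fun n => by
      obtain ⟨d, d', h, _⟩ := hg n
      exact ⟨d, h⟩
    choose d hd using hd
    have hd0 : d 0 = (fun _ => [], []) := Encodable.encode_injective ((hd 0).trans g0)
    have hstep : ∀ n, (∀ i, ∃ c, (d (n + 1)).1 i = (d n).1 i ++ [c]) ∧
        (∃ m, (d (n + 1)).2 = (d n).2 ++ [m]) ∧
        ∃ u : ℕ → ℕ, (∀ j v, (d (n + 1)).2[j]? = some v → u j = v) ∧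
          ∀ i j c, ((d (n + 1)).1 i)[j]? = some c → f u i j = c := by
      intro n
      obtain ⟨e, e', he, he', h⟩ := hg n
      have h1 : e = d n := Encodable.encode_injective (he.trans (hd n).symm)
      have h2 : e' = d (n + 1) := Encodable.encode_injective (he'.trans (hd (n + 1)).symm)
      rw [h1, h2] at h
      exact h
    choose c hc using fun n => (hstep n).1
    choose m hm using fun n => (hstep n).2.1
    choose w hw1 hw2 using fun n => (hstep n).2.2
    have hlen2 : ∀ n, (d n).2 = (List.range n).map m := by
      intro n
      induction n with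
      | zero => rw [hd0]; rfl
      | succ n ih => rw [hm n, ih, List.range_succ, List.map_append]; rfl
    have hlen1 : ∀ n i, (d n).1 i = (List.range n).map (fun j => c j i) := by
      intro n i
      induction n with
      | zero => rw [hd0]; rfl
      | succ n ih => rw [hc n i, ih, List.range_succ, List.map_append]; rfl
    have hcx : ∀ i j, c j i = x i j := by
      intro i j
      have hP : htrP k (g (j + 1)) i j (c j i).toNat := by
        refine ⟨d (j + 1), i.2, c j i, hd _, ?_, rfl⟩
        show ((d (j + 1)).1 i)[j]? = some (c j i)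
        rw [hlen1, List.getElem?_map, List.getElem?_range (Nat.lt_succ_self j)]
        rfl
      cases hcc : c j i
      · rw [hcc] at hP
        exact ((hx (j + 1) i j).2 hP).symm
      · rw [hcc] at hP
        exact ((hx (j + 1) i j).1 hP).symm
    refine ⟨m, ?_⟩
    have hlim : Tendsto w atTop (nhds m) := by
      rw [tendsto_pi_nhds]
      intro j
      refine tendsto_const_nhds.congr' ?_
      filter_upwards [eventually_ge_atTop j] with n hn
      refine (hw1 n j (m j) ?_).symm
      rw [hlen2, List.getElem?_map, List.getElem?_range (by omega)]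
      rfl
    funext i j
    have h1 : Tendsto (fun n => f (w n) i j) atTop (nhds (f m i j)) := by
      have hcont : Continuous fun u => f u i j :=
        (continuous_apply j).comp ((continuous_apply i).comp hf)
      exact (hcont.tendsto m).comp hlim
    have h2 : Tendsto (fun n => f (w n) i j) atTop (nhds (x i j)) := by
      refine tendsto_const_nhds.congr' ?_
      filter_upwards [eventually_ge_atTop j] with n hn
      refine (hw2 n i j (x i j) ?_).symm
      rw [hlen1, List.getElem?_map, List.getElem?_range (by omega), ← hcx i j]
      rfl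
    exact tendsto_nhds_unique h1 h2

theorem ao_htr : HTRStmt := by
  intro k A hA
  rw [AnalyticSet] at hA
  rcases hA with rfl | ⟨f, hf, rfl⟩
  · refine ⟨0, fun _ _ => False, fun _ _ _ _ => False, fun s s' i j b h => h.elim,
      fun s i j h => h.1, fun x => ⟨fun h => h.elim, ?_⟩⟩
    rintro ⟨g, _, h, _⟩
    exact (h 0).elim
  · exact ⟨_, _, _, htr_main f hf⟩

end AO
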